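import Pool.Agent.helper58.MS.M1b

set_option autoImplicit false

/-!
# MS project (MP_c072aa_co), module M1c: elementary facts on `V`, the fourth moment
-/

namespace Pool.Agent.helper75.MS

open Finset

variable {p : ℕ} [Fact p.Prime] {K : Type} [Field K] [Fintype K] [DecidableEq K]

theorem M1c_d_ne {d n : ℕ} (hp : 3 < p) (hn : 0 < n) (hd : Nat.Coprime d (p ^ n - 1)) :
    d ≠ 0 := by
  rintro rfl
  rw [Nat.coprime_zero_left] at hd
  have hpn : p ≤ p ^ n := Nat.le_self_pow hn.ne' p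
  omega

/-- `x ↦ x ^ d` is injective -/
theorem M1c_pow_inj {d n : ℕ} (hp : 3 < p) (hq : Fintype.card K = p ^ n) (hn : 0 < n)
    (hd : Nat.Coprime d (p ^ n - 1)) : Function.Injective (fun x : K => x ^ d) := by
  have hd0 := M1c_d_ne hp hn hd
  intro x y hxy
  have hxy' : x ^ d = y ^ d := hxy
  by_cases hx : x = 0
  · rw [hx, zero_pow hd0] at hxy'
    rw [hx]
    exact (pow_eq_zero_iff hd0).1 hxy'.symm |>.symm
  · have hy : y ≠ 0 := by
      rintro rfl
      rw [zero_pow hd0] at hxy'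
      exact hx ((pow_eq_zero_iff hd0).1 hxy')
    have h1 : (x / y) ^ d = 1 := by
      rw [div_pow, hxy', div_self (pow_ne_zero _ hy)]
    have h2 : (x / y) ^ (p ^ n - 1) = 1 := by
      rw [← hq]
      exact FiniteField.pow_card_sub_one_eq_one _ (div_ne_zero hx hy)
    have h3 : (x / y) ^ (Nat.gcd d (p ^ n - 1)) = 1 := pow_gcd_eq_one.2 ⟨h1, h2⟩
    rw [hd, pow_one] at h3
    exact (div_eq_one_iff_eq hy).1 h3

theorem M1c_odd {d n : ℕ} (hp : 3 < p) (hn : 0 < n) (hd : Nat.Coprime d (p ^ n - 1)) :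
    Odd d := by
  have h1 : Odd p := (Fact.out : p.Prime).odd_of_ne_two (by omega)
  have h2 : Odd (p ^ n) := h1.pow
  have h3 : 2 ∣ p ^ n - 1 := by
    obtain ⟨k, hk⟩ := h2
    exact ⟨k, by omega⟩
  rw [← Nat.not_even_iff_odd]
  intro h4
  have h5 := Nat.dvd_gcd h4.two_dvd h3
  rw [hd] at h5
  omega

theorem M1c_phi_ne {d n : ℕ} (hp : 3 < p) (hq : Fintype.card K = p ^ n) (hn : 0 < n)
    (hd : Nat.Coprime d (p ^ n - 1)) (t : K) : t ^ d + (1 - t) ^ d ≠ 0 := by
  intro h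
  have h1 : t ^ d = (t - 1) ^ d := by
    have h2 : (t - 1) ^ d = -(1 - t) ^ d := by
      rw [← (M1c_odd hp hn hd).neg_pow]
      congr 1
      ring
    rw [h2]
    linear_combination h
  have h3 := M1c_pow_inj hp hq hn hd h1
  have h4 : (1 : K) = 0 := by linear_combination h3
  exact one_ne_zero h4

/-- M1c: elementary facts on `V`. -/
theorem V_sum {d n : ℕ} (hp : 3 < p) (hq : Fintype.card K = p ^ n) (hn : 0 < n)
    (hd : Nat.Coprime d (p ^ n - 1)) : ∑ l ∈ univ.erase (0 : K), V d l = p ^ n := by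
  have hd0 := M1c_d_ne hp hn hd
  have hinj := M1c_pow_inj (K := K) hp hq hn hd
  have hsurj : Function.Surjective (fun x : K => x ^ d) := Finite.surjective_of_injective hinj
  unfold V
  simp only [Finset.card_filter]
  rw [Finset.sum_comm]
  rw [Finset.sum_congr rfl (g := fun _ => 1)]
  · rw [Finset.sum_const, Finset.card_univ, hq, smul_eq_mul, mul_one]
  · intro t _
    have hφ := M1c_phi_ne hp hq hn hd t
    obtain ⟨l₀, hl₀⟩ := hsurj (t ^ d + (1 - t) ^ d)⁻¹
    have hl₀' : l₀ ^ d = (t ^ d + (1 - t) ^ d)⁻¹ := hl₀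
    have hl₀0 : l₀ ≠ 0 := by
      rintro rfl
      rw [zero_pow hd0] at hl₀'
      exact inv_ne_zero hφ hl₀'.symm
    rw [Finset.sum_eq_single l₀]
    · rw [if_pos]
      rw [hl₀', inv_mul_cancel₀ hφ]
    · intro l _ hl
      rw [if_neg]
      intro h1
      apply hl
      apply hinj
      show l ^ d = l₀ ^ d
      rw [hl₀']
      exact eq_inv_of_mul_eq_one_left h1
    · intro h1
      exact absurd (Finset.mem_erase.2 ⟨hl₀0, Finset.mem_univ _⟩) h1

variable [Algebra (ZMod p) K]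

/-- orthogonality of the rows -/
theorem M1c_orth {d n : ℕ} (hp : 3 < p) (hq : Fintype.card K = p ^ n) (hn : 0 < n)
    (hd : Nat.Coprime d (p ^ n - 1)) (hd1 : d ≡ 1 [MOD p - 1]) (a b : K) (ha : a ≠ 0)
    (hb : b ≠ 0) :
    ∑ l ∈ univ.erase (0 : K), w p d (l * a) * w p d (l * b) =
      if a = b then (p : ℤ) ^ (2 * n) else 0 := by
  have h1 : ∑ l ∈ univ.erase (0 : K), w p d (l * a) * w p d (l * b) =
      ∑ l : K, w p d (l * a) * w p d (l * b) := by
    rw [← Finset.add_sum_erase _ _ (Finset.mem_univ (0 : K)), zero_mul,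
      w_zero hp hq hn hd hd1, zero_mul, zero_add]
  rw [h1]
  have h2 := w_sq hp hq hn hd hd1 (b / a) (div_ne_zero hb ha)
  have h3 : ∑ l : K, w p d (l * a) * w p d (l * b) =
      ∑ x : K, w p d x * w p d (b / a * x) := by
    apply Fintype.sum_equiv (Equiv.mulRight₀ a ha)
    intro l
    show w p d (l * a) * w p d (l * b) = w p d (l * a) * w p d (b / a * (l * a))
    congr 2
    field_simp
  rw [h3, h2]
  have h4 : (b / a = 1) ↔ (a = b) := by
    rw [div_eq_one_iff_eq ha]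
    exact eq_comm
  simp only [h4]

/-- fourth moment (Parseval): from `w_sq` and `w_cube` -/
theorem V_sq_sum {d n : ℕ} (hp : 3 < p) (hq : Fintype.card K = p ^ n) (hn : 0 < n)
    (hd : Nat.Coprime d (p ^ n - 1)) (hd1 : d ≡ 1 [MOD p - 1]) :
    (p : ℤ) ^ (2 * n) * ∑ l ∈ univ.erase (0 : K), (V d l : ℤ) ^ 2 = ∑ a : K, w p d a ^ 4 := by
  have hp0 : ((p : ℤ) ^ (2 * n)) ≠ 0 := by
    apply pow_ne_zero
    exact_mod_cast (Fact.out : p.Prime).ne_zero
  apply mul_left_cancel₀ hp0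
  have hw0 : w p d (0 : K) = 0 := w_zero hp hq hn hd hd1
  have h1 : (p : ℤ) ^ (2 * n) * ((p : ℤ) ^ (2 * n) * ∑ l ∈ univ.erase (0 : K), (V d l : ℤ) ^ 2) =
      ∑ l ∈ univ.erase (0 : K), ((p : ℤ) ^ (2 * n) * V d l) ^ 2 := by
    rw [← mul_assoc, Finset.mul_sum]
    apply Finset.sum_congr rfl
    intro l _
    ring
  have h2 : ∀ l ∈ univ.erase (0 : K), ((p : ℤ) ^ (2 * n) * V d l) ^ 2 =
      ∑ a ∈ univ.erase (0 : K), ∑ b ∈ univ.erase (0 : K),
        (w p d a ^ 2 * w p d b ^ 2) * (w p d (l * a) * w p d (l * b)) := by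
    intro l hl
    rw [← w_cube hp hq hn hd hd1 l (Finset.ne_of_mem_erase hl),
      ← Finset.add_sum_erase _ _ (Finset.mem_univ (0 : K)), hw0]
    rw [zero_pow (by norm_num), zero_mul, zero_add, sq, Finset.sum_mul_sum]
    apply Finset.sum_congr rfl
    intro a _
    apply Finset.sum_congr rfl
    intro b _
    ring
  rw [h1, Finset.sum_congr rfl h2, Finset.sum_comm]
  have h3 : ∀ a ∈ univ.erase (0 : K), ∑ l ∈ univ.erase (0 : K), ∑ b ∈ univ.erase (0 : K),
      (w p d a ^ 2 * w p d b ^ 2) * (w p d (l * a) * w p d (l * b)) =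
      (p : ℤ) ^ (2 * n) * w p d a ^ 4 := by
    intro a ha
    rw [Finset.sum_comm]
    have h4 : ∀ b ∈ univ.erase (0 : K), ∑ l ∈ univ.erase (0 : K),
        (w p d a ^ 2 * w p d b ^ 2) * (w p d (l * a) * w p d (l * b)) =
        if a = b then (w p d a ^ 2 * w p d b ^ 2) * (p : ℤ) ^ (2 * n) else 0 := by
      intro b hb
      rw [← Finset.mul_sum, M1c_orth hp hq hn hd hd1 a b (Finset.ne_of_mem_erase ha)
        (Finset.ne_of_mem_erase hb)]
      split_ifs
      · rfl
      · rw [mul_zero]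
    rw [Finset.sum_congr rfl h4, Finset.sum_ite_eq, if_pos ha]
    ring
  rw [Finset.sum_congr rfl h3, ← Finset.mul_sum]
  congr 1
  rw [← Finset.add_sum_erase _ _ (Finset.mem_univ (0 : K)), hw0]
  rw [zero_pow (by norm_num), zero_add]

end Pool.Agent.helper75.MS
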