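import Mathlib

set_option autoImplicit false

/-!
# MS project (MP_c072aa_co), module M3: zero is one of the three values
-/

namespace Pool.Agent.helper75.MS

open Finset

/-- the ordered case -/
theorem M3_core (p n NA NB NC : ℕ) (hp : p.Prime) (hp3 : 3 < p) (hn : 0 < n)
    (A B C V1 a b c : ℤ) (α β γ : ℕ) (hA : A = (p : ℤ) ^ α * a) (hB : B = (p : ℤ) ^ β * b)
    (hC : C = (p : ℤ) ^ γ * c) (ha : ¬ (p : ℤ) ∣ a) (hb : ¬ (p : ℤ) ∣ b) (hc : ¬ (p : ℤ) ∣ c)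
    (hαβ : α ≤ β) (hβγ : β ≤ γ)
    (hNA : 1 ≤ NA) (hNB : 1 ≤ NB) (hNC : 1 ≤ NC)
    (h0 : (NA + NB + NC : ℤ) = (p : ℤ) ^ n - 1)
    (h1 : (NA * A + NB * B + NC * C : ℤ) = (p : ℤ) ^ n)
    (h2 : (NA * A ^ 2 + NB * B ^ 2 + NC * C ^ 2 : ℤ) = (p : ℤ) ^ (2 * n))
    (h3 : (NA * A ^ 3 + NB * B ^ 3 + NC * C ^ 3 : ℤ) = (p : ℤ) ^ (2 * n) * V1) : False := by
  have hpp : Prime (p : ℤ) := Nat.prime_iff_prime_int.1 hp
  have hp0 : (0 : ℤ) < p := by exact_mod_cast hp.pos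
  have hp4 : (4 : ℤ) ≤ p := by exact_mod_cast hp3
  have ha0 : a ≠ 0 := by rintro rfl; exact ha (dvd_zero _)
  have hb0 : b ≠ 0 := by rintro rfl; exact hb (dvd_zero _)
  have hc0 : c ≠ 0 := by rintro rfl; exact hc (dvd_zero _)
  obtain ⟨q, hq⟩ : ∃ q : ℤ, q = (p : ℤ) ^ n := ⟨_, rfl⟩
  have hq2 : (p : ℤ) ^ (2 * n) = q ^ 2 := by rw [hq]; ring
  rw [← hq] at h0 h1
  rw [hq2] at h2 h3
  have hqpos : 0 < q := by rw [hq]; positivity
  have hNA' : (1 : ℤ) ≤ NA := by exact_mod_cast hNA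
  have hNB' : (1 : ℤ) ≤ NB := by exact_mod_cast hNB
  have hNC' : (1 : ℤ) ≤ NC := by exact_mod_cast hNC
  have sqpos : ∀ x : ℤ, x ≠ 0 → 1 ≤ x ^ 2 := by
    intro x hx
    have := sq_pos_of_ne_zero hx
    omega
  have hA0 : A ≠ 0 := by rw [hA]; exact mul_ne_zero (pow_ne_zero _ hp0.ne') ha0
  have hB0 : B ≠ 0 := by rw [hB]; exact mul_ne_zero (pow_ne_zero _ hp0.ne') hb0
  have hC0 : C ≠ 0 := by rw [hC]; exact mul_ne_zero (pow_ne_zero _ hp0.ne') hc0
  -- the key divisibility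
  have key : q ^ 2 ∣ A * B * C + q * (A * B + A * C + B * C) := by
    have e : A * B * C * (q - 1) = q * (q * V1 - (A + B + C) * q + (A * B + A * C + B * C)) := by
      linear_combination h3 - (A + B + C) * h2 + (A * B + A * C + B * C) * h1 - A * B * C * h0
    have h4 : q ∣ A * B * C * (q - 1) := ⟨_, e⟩
    have h5 : IsCoprime q (q - 1) := ⟨1, -1, by ring⟩
    have h6 : q ∣ A * B * C := h5.dvd_of_dvd_mul_right h4
    obtain ⟨f, hf⟩ := h6
    refine ⟨f - (V1 - (A + B + C)), ?_⟩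
    linear_combination (-1 : ℤ) * e + q * hf
  -- sizes
  have hCq : C ^ 2 < q ^ 2 := by
    have h4 : 1 ≤ (NA : ℤ) * A ^ 2 := one_le_mul_of_one_le_of_one_le hNA' (sqpos A hA0)
    have h5 : 0 ≤ (NB : ℤ) * B ^ 2 := by positivity
    have h6 : C ^ 2 ≤ (NC : ℤ) * C ^ 2 := le_mul_of_one_le_left (sq_nonneg C) hNC'
    linarith
  have hγn : γ < n := by
    by_contra h
    push Not at h
    have h4 : q ∣ C := by
      rw [hC, hq]
      exact (pow_dvd_pow _ h).mul_right _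
    obtain ⟨e, he⟩ := h4
    have he0 : e ≠ 0 := by
      rintro rfl
      exact hC0 (by rw [he, mul_zero])
    have h5 : q ^ 2 ≤ q ^ 2 * e ^ 2 := le_mul_of_one_le_right (sq_nonneg q) (sqpos e he0)
    have h6 : C ^ 2 = q ^ 2 * e ^ 2 := by rw [he]; ring
    linarith
  -- the sum of the exponents
  have hsum : 2 * n ≤ α + β + γ := by
    by_contra h
    push Not at h
    have h4 : (p : ℤ) ^ (α + β + γ + 1) ∣ q ^ 2 := by
      rw [← hq2]
      exact pow_dvd_pow _ h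
    have h5 : (p : ℤ) ^ (α + β + γ + 1) ∣ q * (A * B + A * C + B * C) := by
      have h6 : (p : ℤ) ^ (α + β) ∣ A * B + A * C + B * C := by
        refine dvd_add (dvd_add ?_ ?_) ?_
        · rw [pow_add]
          exact mul_dvd_mul ⟨a, hA⟩ ⟨b, hB⟩
        · rw [pow_add]
          exact mul_dvd_mul ⟨a, hA⟩ ((pow_dvd_pow _ hβγ).trans ⟨c, hC⟩)
        · rw [pow_add]
          exact mul_dvd_mul ((pow_dvd_pow _ hαβ).trans ⟨b, hB⟩) ((pow_dvd_pow _ hβγ).trans ⟨c, hC⟩)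
      have h7 : (p : ℤ) ^ (α + β + γ + 1) ∣ (p : ℤ) ^ n * (p : ℤ) ^ (α + β) := by
        rw [← pow_add]
        exact pow_dvd_pow _ (by omega)
      rw [hq]
      exact h7.trans (mul_dvd_mul_left _ h6)
    have h6 : (p : ℤ) ^ (α + β + γ + 1) ∣ A * B * C := by
      have h7 := dvd_sub (h4.trans key) h5
      rwa [add_sub_cancel_right] at h7
    have h7 : A * B * C = (p : ℤ) ^ (α + β + γ) * (a * b * c) := by
      rw [hA, hB, hC]
      ring
    rw [h7, pow_succ] at h6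
    have h8 := (mul_dvd_mul_iff_left (pow_ne_zero (α + β + γ) hp0.ne')).1 h6
    rcases hpp.dvd_or_dvd h8 with h9 | h9
    · rcases hpp.dvd_or_dvd h9 with h10 | h10
      · exact ha h10
      · exact hb h10
    · exact hc h9
  -- the inequalities
  obtain ⟨P, hP⟩ : ∃ P : ℤ, P = (p : ℤ) ^ (n - β) := ⟨_, rfl⟩
  obtain ⟨R, hR⟩ : ∃ R : ℤ, R = (p : ℤ) ^ β := ⟨_, rfl⟩
  have hPR : q = P * R := by
    rw [hq, hP, hR, ← pow_add]
    congr 1
    omega
  have hPpos : 0 < P := by rw [hP]; positivity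
  have hRpos : 0 < R := by rw [hR]; positivity
  have hB2 : R ^ 2 ≤ B ^ 2 := by
    have h4 := sqpos b hb0
    have h5 : B ^ 2 = R ^ 2 * b ^ 2 := by rw [hB, hR]; ring
    rw [h5]
    exact le_mul_of_one_le_right (sq_nonneg R) h4
  have hC2 : R ^ 2 ≤ C ^ 2 := by
    have h4 : R ∣ C := by
      rw [hR]
      exact (pow_dvd_pow _ hβγ).trans ⟨c, hC⟩
    obtain ⟨e, he⟩ := h4
    have he0 : e ≠ 0 := by
      rintro rfl
      exact hC0 (by rw [he, mul_zero])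
    have h5 := sqpos e he0
    have h6 : C ^ 2 = R ^ 2 * e ^ 2 := by rw [he]; ring
    rw [h6]
    exact le_mul_of_one_le_right (sq_nonneg R) h5
  have hM : (NB + NC : ℤ) ≤ P ^ 2 := by
    have h4 : R ^ 2 * (NB + NC : ℤ) ≤ R ^ 2 * P ^ 2 := by
      have h5 : R ^ 2 * P ^ 2 = q ^ 2 := by rw [hPR]; ring
      rw [h5, ← h2]
      have h6 : 0 ≤ (NA : ℤ) * A ^ 2 := by positivity
      have h7 : (NB : ℤ) * R ^ 2 ≤ NB * B ^ 2 := mul_le_mul_of_nonneg_left hB2 (by positivity)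
      have h8 : (NC : ℤ) * R ^ 2 ≤ NC * C ^ 2 := mul_le_mul_of_nonneg_left hC2 (by positivity)
      linarith
    exact le_of_mul_le_mul_left h4 (by positivity)
  have hpP2 : (p : ℤ) * P ^ 2 ≤ q := by
    rw [hP, hq, ← pow_mul, ← pow_succ']
    exact pow_le_pow_right₀ (by omega) (by omega)
  have hpP : (p : ℤ) * P ≤ q := by
    rw [hP, hq, ← pow_succ']
    exact pow_le_pow_right₀ (by omega) (by omega)
  have hCS : (NB * B + NC * C : ℤ) ^ 2 ≤ (P * q) ^ 2 := by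
    have h4 : (NB * B + NC * C : ℤ) ^ 2 ≤ (NB + NC) * (NB * B ^ 2 + NC * C ^ 2) := by
      have h5 : (0 : ℤ) ≤ NB * NC * (B - C) ^ 2 := by positivity
      have h6 : (NB + NC : ℤ) * (NB * B ^ 2 + NC * C ^ 2) =
          (NB * B + NC * C) ^ 2 + NB * NC * (B - C) ^ 2 := by ring
      linarith
    have h6 : (NB * B ^ 2 + NC * C ^ 2 : ℤ) ≤ q ^ 2 := by
      have h7 : 0 ≤ (NA : ℤ) * A ^ 2 := by positivity
      linarith
    have h8 : (0 : ℤ) ≤ NB * B ^ 2 + NC * C ^ 2 := by positivity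
    calc (NB * B + NC * C : ℤ) ^ 2 ≤ (NB + NC) * (NB * B ^ 2 + NC * C ^ 2) := h4
      _ ≤ P ^ 2 * (NB * B ^ 2 + NC * C ^ 2) := mul_le_mul_of_nonneg_right hM h8
      _ ≤ P ^ 2 * q ^ 2 := mul_le_mul_of_nonneg_left h6 (by positivity)
      _ = (P * q) ^ 2 := by ring
  have hCS' : |(NB * B + NC * C : ℤ)| ≤ P * q := abs_le_of_sq_le_sq hCS (by positivity)
  have hNAA : (NA : ℤ) * |A| ≤ q + P * q := by
    have h4 : (NA : ℤ) * |A| = |q - (NB * B + NC * C)| := by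
      have h5 : (NA : ℤ) * A = q - (NB * B + NC * C) := by linarith
      rw [← h5, abs_mul, abs_of_nonneg (show (0 : ℤ) ≤ NA by positivity)]
    rw [h4]
    calc |q - (NB * B + NC * C)| ≤ |q| + |(NB * B + NC * C : ℤ)| := abs_sub _ _
      _ ≤ q + P * q := by
        rw [abs_of_pos hqpos]
        linarith
  have hAp : (p : ℤ) * P ≤ |A| := by
    have h4 : (p : ℤ) * P ∣ A := by
      rw [hP, ← pow_succ', hA]
      exact (pow_dvd_pow _ (by omega)).mul_right _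
    exact Int.le_of_dvd (abs_pos.2 hA0) ((dvd_abs _ _).2 h4)
  have h4 : (NA : ℤ) * ((p : ℤ) * P) ≤ q + P * q :=
    (mul_le_mul_of_nonneg_left hAp (by positivity)).trans hNAA
  have h5 : (p : ℤ) * NA ≥ p * q - p - q := by
    have h6 : q - 1 - P ^ 2 ≤ (NA : ℤ) := by linarith
    have h7 := mul_le_mul_of_nonneg_left h6 hp0.le
    have h8 : (p : ℤ) * (q - 1 - P ^ 2) = p * q - p - p * P ^ 2 := by ring
    linarith
  have h6 : P * (p * q - p - q) ≤ q + P * q := by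
    have h7 : P * (p * q - p - q) ≤ P * (p * NA) := mul_le_mul_of_nonneg_left h5 hPpos.le
    have h8 : P * ((p : ℤ) * NA) = NA * (p * P) := by ring
    linarith
  have h7 : q * (P * (p - 2)) ≤ q * 2 := by
    have e : q * (P * ((p : ℤ) - 2)) = P * (p * q - p - q) - P * q + p * P := by ring
    linarith
  have h8 : P * ((p : ℤ) - 2) ≤ 2 := le_of_mul_le_mul_left h7 hqpos
  have h9 : (1 : ℤ) ≤ P := hPpos
  have h10 : (p : ℤ) ≥ 5 := by
    rcases eq_or_lt_of_le hp4 with h11 | h11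
    · exfalso
      have h12 : p = 4 := by exact_mod_cast h11.symm
      rw [h12] at hp
      norm_num at hp
    · omega
  have h11 : (1 : ℤ) * 3 ≤ P * ((p : ℤ) - 2) := mul_le_mul h9 (by omega) (by norm_num) hPpos.le
  linarith

/-- M3 -/
theorem no_three_nonzero (p n NA NB NC : ℕ) (hp : p.Prime) (hp3 : 3 < p) (hn : 0 < n)
    (A B C V1 : ℤ) (hA : A ≠ 0) (hB : B ≠ 0) (hC : C ≠ 0) (hAB : A ≠ B) (hAC : A ≠ C) (hBC : B ≠ C)
    (hNA : 1 ≤ NA) (hNB : 1 ≤ NB) (hNC : 1 ≤ NC)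
    (h0 : (NA + NB + NC : ℤ) = (p : ℤ) ^ n - 1)
    (h1 : (NA * A + NB * B + NC * C : ℤ) = (p : ℤ) ^ n)
    (h2 : (NA * A ^ 2 + NB * B ^ 2 + NC * C ^ 2 : ℤ) = (p : ℤ) ^ (2 * n))
    (h3 : (NA * A ^ 3 + NB * B ^ 3 + NC * C ^ 3 : ℤ) = (p : ℤ) ^ (2 * n) * V1) : False := by
  have hpp : Prime (p : ℤ) := Nat.prime_iff_prime_int.1 hp
  have key : ∀ x : ℤ, x ≠ 0 → ∃ (k : ℕ) (y : ℤ), x = (p : ℤ) ^ k * y ∧ ¬ (p : ℤ) ∣ y := by
    intro x hx
    obtain ⟨y, hxy, hy⟩ := (FiniteMultiplicity.of_prime_left hpp hx).exists_eq_pow_mul_and_not_dvd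
    exact ⟨_, y, hxy, hy⟩
  obtain ⟨α, a, hA', ha⟩ := key A hA
  obtain ⟨β, b, hB', hb⟩ := key B hB
  obtain ⟨γ, c, hC', hc⟩ := key C hC
  rcases le_total α β with h4 | h4 <;> rcases le_total β γ with h5 | h5 <;>
    rcases le_total α γ with h6 | h6
  · exact M3_core p n NA NB NC hp hp3 hn A B C V1 a b c α β γ hA' hB' hC' ha hb hc h4 h5 hNA hNB
      hNC h0 h1 h2 h3
  · exact M3_core p n NA NB NC hp hp3 hn A B C V1 a b c α β γ hA' hB' hC' ha hb hc h4 h5 hNA hNB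
      hNC h0 h1 h2 h3
  · exact M3_core p n NA NC NB hp hp3 hn A C B V1 a c b α γ β hA' hC' hB' ha hc hb h6 h5 hNA hNC
      hNB (by linarith) (by linarith) (by linarith) (by linarith)
  · exact M3_core p n NC NA NB hp hp3 hn C A B V1 c a b γ α β hC' hA' hB' hc ha hb h6 h4 hNC hNA
      hNB (by linarith) (by linarith) (by linarith) (by linarith)
  · exact M3_core p n NB NA NC hp hp3 hn B A C V1 b a c β α γ hB' hA' hC' hb ha hc h4 h6 hNB hNA
      hNC (by linarith) (by linarith) (by linarith) (by linarith)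
  · exact M3_core p n NB NC NA hp hp3 hn B C A V1 b c a β γ α hB' hC' hA' hb hc ha h5 h6 hNB hNC
      hNA (by linarith) (by linarith) (by linarith) (by linarith)
  · exact M3_core p n NC NB NA hp hp3 hn C B A V1 c b a γ β α hC' hB' hA' hc hb ha h5 h4 hNC hNB
      hNA (by linarith) (by linarith) (by linarith) (by linarith)
  · exact M3_core p n NC NB NA hp hp3 hn C B A V1 c b a γ β α hC' hB' hA' hc hb ha h5 h4 hNC hNB
      hNA (by linarith) (by linarith) (by linarith) (by linarith)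

end Pool.Agent.helper75.MS
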