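import Pool.Agent.helper58.MS.M1b0
import Pool.Agent.helper36.MS.M1a

set_option autoImplicit false

/-!
# MS project (MP_c072aa_co), module M1b, second part: moments of `w`, degenerate exponents
-/

namespace Pool.Agent.helper75.MS

open Finset

variable {p : ℕ} [Fact p.Prime] {K : Type} [Field K] [Fintype K] [DecidableEq K]
  [Algebra (ZMod p) K]

theorem M1b_std_ne : (ZMod.stdAddChar (N := p)) ≠ 1 := by
  intro h
  have h1 : (ZMod.stdAddChar (N := p)) 1 = (ZMod.stdAddChar (N := p)) 0 := by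
    rw [h]
    simp
  exact one_ne_zero (ZMod.injective_stdAddChar h1)

theorem w_zero {d n : ℕ} (hp : 3 < p) (hq : Fintype.card K = p ^ n) (hn : 0 < n)
    (hd : Nat.Coprime d (p ^ n - 1)) (hd1 : d ≡ 1 [MOD p - 1]) :
    w p d (0 : K) = 0 := by
  have h1 := W_zero (K := K) (M1b_std_ne (p := p)) hp hq hn hd
  rw [W_eq_w M1b_std_ne hp hd1] at h1
  exact_mod_cast h1

theorem w_sum {d n : ℕ} (hp : 3 < p) (hq : Fintype.card K = p ^ n) (hn : 0 < n)
    (hd : Nat.Coprime d (p ^ n - 1)) (hd1 : d ≡ 1 [MOD p - 1]) :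
    ∑ a : K, w p d a = (p : ℤ) ^ n := by
  have h1 := W_sum (K := K) (M1b_std_ne (p := p)) hp hq hn hd
  simp only [W_eq_w M1b_std_ne hp hd1] at h1
  exact_mod_cast h1

theorem w_sq {d n : ℕ} (hp : 3 < p) (hq : Fintype.card K = p ^ n) (hn : 0 < n)
    (hd : Nat.Coprime d (p ^ n - 1)) (hd1 : d ≡ 1 [MOD p - 1]) (l : K) (hl : l ≠ 0) :
    ∑ a : K, w p d a * w p d (l * a) = if l = 1 then (p : ℤ) ^ (2 * n) else 0 := by
  have h1 := W_sq (K := K) (M1b_std_ne (p := p)) hp hq hn hd l hl
  simp only [W_eq_w M1b_std_ne hp hd1] at h1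
  split_ifs with h
  · rw [if_pos h] at h1
    exact_mod_cast h1
  · rw [if_neg h] at h1
    exact_mod_cast h1

theorem w_cube {d n : ℕ} (hp : 3 < p) (hq : Fintype.card K = p ^ n) (hn : 0 < n)
    (hd : Nat.Coprime d (p ^ n - 1)) (hd1 : d ≡ 1 [MOD p - 1]) (l : K) (hl : l ≠ 0) :
    ∑ a : K, w p d a ^ 2 * w p d (l * a) = (p : ℤ) ^ (2 * n) * V d l := by
  have h1 := W_cube (K := K) (M1b_std_ne (p := p)) hp hq hn hd l hl
  simp only [W_eq_w M1b_std_ne hp hd1] at h1
  exact_mod_cast h1

theorem M1b_trace_pow (x : K) (i : ℕ) :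
    Algebra.trace (ZMod p) K (x ^ p ^ i) = Algebra.trace (ZMod p) K x := by
  induction i with
  | zero => simp
  | succ i ih =>
    rw [pow_succ, pow_mul, ← ih]
    have : Algebra.IsAlgebraic (ZMod p) K := inferInstance
    have h1 := Algebra.trace_eq_of_algEquiv (FiniteField.frobeniusAlgEquivOfAlgebraic (ZMod p) K)
      (x ^ p ^ i)
    rw [← h1]
    congr 1
    rw [FiniteField.coe_frobeniusAlgEquivOfAlgebraic, ZMod.card]

/-- degenerate exponents: if `d ≡ p^i` then `w` vanishes except at one point -/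
theorem w_degenerate {d n i : ℕ} (hp : 3 < p) (hq : Fintype.card K = p ^ n) (hn : 0 < n)
    (hdeg : d ≡ p ^ i [MOD p ^ n - 1]) (a : K) :
    w p d a = if a = 1 then (p : ℤ) ^ n else 0 := by
  have hpn : p ≤ p ^ n := Nat.le_self_pow hn.ne' p
  have hpi : 0 < p ^ i := by positivity
  have hd0 : d ≠ 0 := by
    rintro rfl
    have h1 : p ^ n - 1 ∣ p ^ i := by
      have h2 := (Nat.modEq_iff_dvd' (Nat.zero_le _)).1 hdeg
      simpa using h2
    have h2 : Nat.Coprime (p ^ n - 1) (p ^ i) := by
      apply Nat.Coprime.pow_right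
      rw [Nat.coprime_comm]
      apply (Nat.Prime.coprime_iff_not_dvd Fact.out).2
      intro h3
      have h4 : p ∣ p ^ n := dvd_pow_self p hn.ne'
      have h5 : p ∣ p ^ n - (p ^ n - 1) := Nat.dvd_sub h4 h3
      have h6 : p ^ n - (p ^ n - 1) = 1 := by omega
      rw [h6] at h5
      have := Nat.le_of_dvd one_pos h5
      omega
    have h3 := Nat.Coprime.eq_one_of_dvd h2 h1
    omega
  have hpow : ∀ x : K, x ^ d = x ^ p ^ i := by
    intro x
    by_cases hx : x = 0
    · rw [hx, zero_pow hd0, zero_pow hpi.ne']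
    · have h1 : x ^ (p ^ n - 1) = 1 := by
        rw [← hq]
        exact FiniteField.pow_card_sub_one_eq_one x hx
      exact pow_eq_pow_of_modEq hdeg h1
  have hT : ∀ x : K, T p d a x = Algebra.trace (ZMod p) K ((a - 1) * x) := by
    intro x
    unfold T
    rw [hpow, map_sub, M1b_trace_pow, ← map_sub]
    congr 1
    ring
  unfold w cnt
  split_ifs with h
  · have h0 : (univ.filter fun x : K => T p d a x = 0) = univ := by
      apply Finset.filter_true_of_mem
      intro x _
      rw [hT, h, sub_self, zero_mul, map_zero]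
    have h1 : (univ.filter fun x : K => T p d a x = 1) = ∅ := by
      apply Finset.filter_false_of_mem
      intro x _
      rw [hT, h, sub_self, zero_mul, map_zero]
      exact zero_ne_one
    rw [h0, h1, Finset.card_univ, hq]
    simp
  · have ha : a - 1 ≠ 0 := sub_ne_zero.2 h
    obtain ⟨y, hy⟩ := Algebra.trace_surjective (ZMod p) K 1
    have hx0 : Algebra.trace (ZMod p) K ((a - 1) * ((a - 1)⁻¹ * y)) = 1 := by
      rw [← mul_assoc, mul_inv_cancel₀ ha, one_mul, hy]
    have h1 : (univ.filter fun x : K => T p d a x = 0).card =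
        (univ.filter fun x : K => T p d a x = 1).card := by
      apply Finset.card_bij (fun x _ => x + (a - 1)⁻¹ * y)
      · intro x hx
        rw [Finset.mem_filter] at hx ⊢
        refine ⟨Finset.mem_univ _, ?_⟩
        rw [hT, mul_add, map_add, hx0, ← hT, hx.2, zero_add]
      · intro x _ x' _ hxx
        exact add_right_cancel hxx
      · intro x hx
        rw [Finset.mem_filter] at hx
        refine ⟨x - (a - 1)⁻¹ * y, ?_, by ring⟩
        rw [Finset.mem_filter]
        refine ⟨Finset.mem_univ _, ?_⟩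
        rw [hT, mul_sub, map_sub, hx0, ← hT, hx.2, sub_self]
    rw [h1]
    simp

end Pool.Agent.helper75.MS
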