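import Pool.Agent.helper75.MS.Defs

set_option autoImplicit false

/-!
# MS project (MP_c072aa_co), module M1b, first part: `W = w` for `d ≡ 1 mod p - 1`; degenerate exponents
-/

namespace Pool.Agent.helper75.MS

open Finset

variable {p : ℕ} [Fact p.Prime] {K : Type} [Field K] [Fintype K] [DecidableEq K]
  [Algebra (ZMod p) K]
variable {L : Type} [Field L] [CharZero L] {ψ : AddChar (ZMod p) L}

theorem M1b_d_ne {d : ℕ} (hp : 3 < p) (hd1 : d ≡ 1 [MOD p - 1]) : d ≠ 0 := by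
  rintro rfl
  have h1 : 0 % (p - 1) = 1 % (p - 1) := hd1
  rw [Nat.zero_mod, Nat.mod_eq_of_lt (by omega)] at h1
  exact absurd h1 (by norm_num)

theorem M1b_pow {d : ℕ} (hp : 3 < p) (hd1 : d ≡ 1 [MOD p - 1]) (c : ZMod p) : c ^ d = c := by
  by_cases hc : c = 0
  · rw [hc, zero_pow (M1b_d_ne hp hd1)]
  · have h1 : c ^ (p - 1) = 1 := ZMod.pow_card_sub_one_eq_one hc
    have h2 := pow_eq_pow_of_modEq hd1 h1
    rw [h2, pow_one]

theorem M1b_T_smul {d : ℕ} (hp : 3 < p) (hd1 : d ≡ 1 [MOD p - 1]) (a x : K) (c : ZMod p) :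
    T p d a (algebraMap (ZMod p) K c * x) = c * T p d a x := by
  unfold T
  have h1 : a * (algebraMap (ZMod p) K c * x) - (algebraMap (ZMod p) K c * x) ^ d =
      c • (a * x - x ^ d) := by
    rw [Algebra.smul_def, mul_pow, ← map_pow, M1b_pow hp hd1]
    ring
  rw [h1, map_smul, smul_eq_mul]

theorem M1b_cnt {d : ℕ} (hp : 3 < p) (hd1 : d ≡ 1 [MOD p - 1]) (a : K) (c : ZMod p) (hc : c ≠ 0) :
    cnt p d a c = cnt p d a 1 := by
  unfold cnt
  symm
  have hc' : algebraMap (ZMod p) K c ≠ 0 := by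
    rw [Ne, map_eq_zero]
    exact hc
  apply Finset.card_bij (fun x _ => algebraMap (ZMod p) K c * x)
  · intro x hx
    rw [Finset.mem_filter] at hx ⊢
    refine ⟨Finset.mem_univ _, ?_⟩
    rw [M1b_T_smul hp hd1, hx.2, mul_one]
  · intro x _ y _ h
    exact mul_left_cancel₀ hc' h
  · intro y hy
    rw [Finset.mem_filter] at hy
    refine ⟨algebraMap (ZMod p) K c⁻¹ * y, ?_, ?_⟩
    · rw [Finset.mem_filter]
      refine ⟨Finset.mem_univ _, ?_⟩
      rw [M1b_T_smul hp hd1, hy.2, inv_mul_cancel₀ hc]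
    · rw [← mul_assoc, ← map_mul, mul_inv_cancel₀ hc, map_one, one_mul]

theorem M1b_W (d : ℕ) (a : K) : W p ψ d a = ∑ c : ZMod p, (cnt p d a c : L) * ψ c := by
  unfold W cnt
  rw [← Finset.sum_fiberwise (s := Finset.univ) (g := fun x => T p d a x)]
  apply Finset.sum_congr rfl
  intro c _
  rw [Finset.sum_congr rfl (g := fun _ => ψ c)]
  · rw [Finset.sum_const, nsmul_eq_mul]
  · intro x hx
    rw [(Finset.mem_filter.1 hx).2]

/-- M1b: for `d ≡ 1 mod p-1` the Weil sum is the integer `w`. -/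
theorem W_eq_w (hψ : ψ ≠ 1) {d : ℕ} (hp : 3 < p) (hd1 : d ≡ 1 [MOD p - 1]) (a : K) :
    W p ψ d a = (w p d a : L) := by
  rw [M1b_W]
  have h1 : ∑ c : ZMod p, ψ c = 0 := by
    apply AddChar.sum_eq_zero_of_ne_one hψ
  rw [← Finset.add_sum_erase _ _ (Finset.mem_univ (0 : ZMod p))] at h1 ⊢
  rw [Finset.sum_congr rfl (g := fun c => (cnt p d a 1 : L) * ψ c)]
  · rw [← Finset.mul_sum, AddChar.map_zero_eq_one] at *
    unfold w
    push_cast
    linear_combination (cnt p d a 1 : L) * h1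
  · intro c hc
    rw [M1b_cnt hp hd1 a c (Finset.ne_of_mem_erase hc)]

theorem V_one_ge {d : ℕ} (hp : 3 < p) (hd1 : d ≡ 1 [MOD p - 1]) :
    p ≤ V d (1 : K) := by
  have h1 : (Finset.univ.image (algebraMap (ZMod p) K)) ⊆
      (univ.filter fun t : K => (1 : K) ^ d * (t ^ d + (1 - t) ^ d) = 1) := by
    intro t ht
    rw [Finset.mem_image] at ht
    obtain ⟨c, -, rfl⟩ := ht
    rw [Finset.mem_filter]
    refine ⟨Finset.mem_univ _, ?_⟩
    rw [one_pow, one_mul, ← map_one (algebraMap (ZMod p) K), ← map_sub, ← map_pow, ← map_pow,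
      M1b_pow hp hd1, M1b_pow hp hd1, ← map_add]
    congr 1
    ring
  have h2 := Finset.card_le_card h1
  rw [Finset.card_image_of_injective _ (algebraMap (ZMod p) K).injective, Finset.card_univ,
    ZMod.card] at h2
  exact h2

end Pool.Agent.helper75.MS
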